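import Pool.Agent.Helper87.VM.Lib2

/-!
# YUP: upper bound for the tangent spaces of the blow-up
-/

set_option autoImplicit false

namespace Pool.Agent.Helper87.VM

open MvPolynomial Pool.Agent.Helper48.VMRT

section Yup

variable {κ ν : Type} [Fintype κ] [Fintype ν]

/-- the linearised syzygy relation -/
noncomputable def yup_lf (h : ν → MvPolynomial κ ℂ) (x x' : κ → ℂ) (η η' : ν → ℂ) : ℂ :=
  ∑ j, (dpol (h j) x x' * η j + eval x (h j) * η' j)

theorem yup_lf_sub (h h' : ν → MvPolynomial κ ℂ) (x x' : κ → ℂ) (η η' : ν → ℂ) :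
    yup_lf (h - h') x x' η η' = yup_lf h x x' η η' - yup_lf h' x x' η η' := by
  simp only [yup_lf, Pi.sub_apply, dpol_sub, map_sub, ← Finset.sum_sub_distrib]
  exact Finset.sum_congr rfl fun j _ => by ring

theorem yup_lf_sum {J : Type*} (A : Finset J) (h : J → ν → MvPolynomial κ ℂ) (x x' : κ → ℂ)
    (η η' : ν → ℂ) : yup_lf (∑ i ∈ A, h i) x x' η η' = ∑ i ∈ A, yup_lf (h i) x x' η η' := by
  simp only [yup_lf, Finset.sum_apply, dpol_sum, map_sum]
  rw [Finset.sum_comm]
  refine Finset.sum_congr rfl fun j _ => ?_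
  rw [Finset.sum_mul, Finset.sum_mul, ← Finset.sum_add_distrib]

theorem yup_lf_single [DecidableEq ν] (j : ν) (g : MvPolynomial κ ℂ) (x x' : κ → ℂ)
    (η η' : ν → ℂ) : yup_lf (Pi.single j g) x x' η η' = dpol g x x' * η j + eval x g * η' j := by
  rw [yup_lf, Finset.sum_eq_single j]
  · rw [Pi.single_eq_same]
  · intro k _ hk
    rw [Pi.single_eq_of_ne hk]
    simp
  · intro h
    exact absurd (Finset.mem_univ j) h

omit [Fintype κ] in
theorem yup_single_mul [DecidableEq ν] (F : ν → MvPolynomial κ ℂ) (j : ν) (g : MvPolynomial κ ℂ) :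
    ∑ k, (Pi.single j g : ν → MvPolynomial κ ℂ) k * F k = g * F j := by
  rw [Finset.sum_eq_single j]
  · rw [Pi.single_eq_same]
  · intro k _ hk
    rw [Pi.single_eq_of_ne hk, zero_mul]
  · intro h
    exact absurd (Finset.mem_univ j) h

theorem yup_lf_add_vec (h : ν → MvPolynomial κ ℂ) (x x' x'' : κ → ℂ) (η η' η'' : ν → ℂ) :
    yup_lf h x (x' + x'') η (η' + η'') = yup_lf h x x' η η' + yup_lf h x x'' η η'' := by
  simp only [yup_lf, dpol_add_right, Pi.add_apply, ← Finset.sum_add_distrib]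
  exact Finset.sum_congr rfl fun j _ => by ring

theorem yup_lf_smul_vec (h : ν → MvPolynomial κ ℂ) (c : ℂ) (x x' : κ → ℂ) (η η' : ν → ℂ) :
    yup_lf h x (c • x') η (c • η') = c * yup_lf h x x' η η' := by
  simp only [yup_lf, dpol_smul_right, Pi.smul_apply, smul_eq_mul, Finset.mul_sum]
  exact Finset.sum_congr rfl fun j _ => by ring

/-- the solutions of the linearised relations -/
noncomputable def yupE (F : ν → MvPolynomial κ ℂ) (x : κ → ℂ) (η : ν → ℂ) :
    Submodule ℂ ((κ → ℂ) × (ν → ℂ)) where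
  carrier := {p | ∀ (d : ℕ) (h : ν → MvPolynomial κ ℂ), (∀ j, HomE d (h j)) →
    ∑ j, h j * F j = 0 → yup_lf h x p.1 η p.2 = 0}
  zero_mem' := by
    intro d h _ _
    show yup_lf h x 0 η 0 = 0
    simp [yup_lf]
  add_mem' := by
    intro p q hp hq d h hh hs
    show yup_lf h x (p.1 + q.1) η (p.2 + q.2) = 0
    rw [yup_lf_add_vec, hp d h hh hs, hq d h hh hs, add_zero]
  smul_mem' := by
    intro c p hp d h hh hs
    show yup_lf h x (c • p.1) η (c • p.2) = 0
    rw [yup_lf_smul_vec, hp d h hh hs, mul_zero]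

theorem yup_mem {F : ν → MvPolynomial κ ℂ} {x : κ → ℂ} {η : ν → ℂ} {p : (κ → ℂ) × (ν → ℂ)} :
    p ∈ yupE F x η ↔ ∀ (d : ℕ) (h : ν → MvPolynomial κ ℂ), (∀ j, HomE d (h j)) →
    ∑ j, h j * F j = 0 → yup_lf h x p.1 η p.2 = 0 := Iff.rfl

/-- the relations hold for all syzygies -/
theorem yup_all {a : ℕ} {F : ν → MvPolynomial κ ℂ} (hF : ∀ j, HomE a (F j)) {x : κ → ℂ}
    {η : ν → ℂ} {p : (κ → ℂ) × (ν → ℂ)} (hp : p ∈ yupE F x η) (h : ν → MvPolynomial κ ℂ)
    (hh : ∑ j, h j * F j = 0) : yup_lf h x p.1 η p.2 = 0 := by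
  classical
  let D := ∑ j, (h j).totalDegree
  have hD : ∀ j, (h j).totalDegree ≤ D := fun j =>
    Finset.single_le_sum (f := fun j => (h j).totalDegree) (fun _ _ => Nat.zero_le _)
      (Finset.mem_univ j)
  have hsum : h = ∑ i ∈ Finset.range (D + 1), fun j => homogeneousComponent i (h j) := by
    funext j
    rw [Finset.sum_apply]
    conv_lhs => rw [← sum_homogeneousComponent (h j)]
    refine Finset.sum_subset ?_ ?_
    · intro i hi
      have := Finset.mem_range.1 hi
      have := hD j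
      exact Finset.mem_range.2 (by omega)
    · intro i _ hi
      rw [homogeneousComponent_eq_zero i _ (by simp at hi; omega)]
  rw [hsum, yup_lf_sum]
  refine Finset.sum_eq_zero fun i _ => ?_
  exact hp i _ (fun j => homE_of_isHomogeneous (homogeneousComponent_isHomogeneous i (h j)))
    (syz_component hF hh i)

/-- tangent vectors of the Segre cone -/
theorem yup_minors {F : ν → MvPolynomial κ ℂ} {x : κ → ℂ} {η : ν → ℂ} (hx : x ≠ 0) (hη : η ≠ 0)
    {v : κ × ν → ℂ} (hv : v ∈ tsp (Yc F) (seg x η)) : ∃ x' η', v = seg x' η + seg x η' := by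
  obtain ⟨o₁, ho⟩ := Function.ne_iff.1 hx
  obtain ⟨j₁, hj⟩ := Function.ne_iff.1 hη
  have ho' : x o₁ ≠ 0 := ho
  have hj' : η j₁ ≠ 0 := hj
  refine ⟨fun o => v (o, j₁) / η j₁,
    fun j => v (o₁, j) / x o₁ - v (o₁, j₁) * η j / (x o₁ * η j₁), ?_⟩
  funext ⟨o, j⟩
  have h1 := hv (X (o, j) * X (o₁, j₁) - X (o, j₁) * X (o₁, j)) (mem_vI.2 (by
    rintro z ⟨x₀, η₀, rfl, _⟩
    simp only [map_sub, map_mul, eval_X, seg]
    ring))
  simp only [dpol_sub, dpol_mul, dpol_X, eval_X, seg] at h1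
  show v (o, j) = v (o, j₁) / η j₁ * η j + x o * (v (o₁, j) / x o₁ -
    v (o₁, j₁) * η j / (x o₁ * η j₁))
  field_simp
  linear_combination h1

theorem yup_dhom {d : ℕ} {p : MvPolynomial κ ℂ} (hp : HomE d p) (c c' : ℂ) (x x' : κ → ℂ) :
    c * dpol p (c • x) (c • x' + c' • x) =
      c ^ d * (c * dpol p x x' + c' * (d * eval x p)) := by
  cases d with
  | zero =>
    have h0 := isHomogeneous_of_homE hp
    have hC := (totalDegree_eq_zero_iff_eq_C (p := p)).1 (Nat.le_zero.1 h0.totalDegree_le)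
    rw [hC, dpol_C, dpol_C]
    simp
  | succ k =>
    rw [dpol_smul_point hp, dpol_add_right, dpol_smul_right, dpol_smul_right, euler hp x]
    ring

/-- tangent vectors satisfy the linearised relations -/
theorem yup_lin {F : ν → MvPolynomial κ ℂ} {x x' : κ → ℂ} {η η' : ν → ℂ} (hx : x ≠ 0)
    (hη : η ≠ 0) (hs : Syz F x η) (hv : seg x' η + seg x η' ∈ tsp (Yc F) (seg x η)) :
    ((x', η') : (κ → ℂ) × (ν → ℂ)) ∈ yupE F x η := by
  obtain ⟨o, ho⟩ := Function.ne_iff.1 hx
  obtain ⟨j₀, hj⟩ := Function.ne_iff.1 hη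
  have ho' : x o ≠ 0 := ho
  have hj' : η j₀ ≠ 0 := hj
  intro d h hh hsyz
  show yup_lf h x x' η η' = 0
  let f : κ → MvPolynomial (κ × ν) ℂ := fun o' => X (o', j₀)
  have hev : ∀ z : κ × ν → ℂ, ev f z = fun o' => z (o', j₀) := by
    intro z
    funext o'
    show eval z (X (o', j₀)) = z (o', j₀)
    rw [eval_X]
  have hdev : ∀ z v : κ × ν → ℂ, dev f z v = fun o' => v (o', j₀) := by
    intro z v
    funext o'
    show dpol (X (o', j₀)) z v = v (o', j₀)
    rw [dpol_X]
  have hq : (∑ j, aeval f (h j) * X (o, j) : MvPolynomial (κ × ν) ℂ) ∈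
      vanishingIdeal ℂ (Yc F) := by
    rw [mem_vI]
    rintro z ⟨x₀, η₀, rfl, hs₀⟩
    rw [map_sum]
    have e1 : ev f (seg x₀ η₀) = η₀ j₀ • x₀ := by
      rw [hev]
      funext o'
      show x₀ o' * η₀ j₀ = η₀ j₀ * x₀ o'
      ring
    have e2 : ∀ j, eval (seg x₀ η₀) (aeval f (h j) * X (o, j)) =
        (η₀ j₀ ^ d * x₀ o) * (eval x₀ (h j) * η₀ j) := by
      intro j
      rw [map_mul, eval_aeval, e1, hh j, eval_X]
      show η₀ j₀ ^ d * eval x₀ (h j) * (x₀ o * η₀ j) = _
      ring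
    rw [Finset.sum_congr rfl fun j _ => e2 j, ← Finset.mul_sum, hs₀ h hsyz, mul_zero]
  have h1 := hv _ hq
  rw [dpol_sum] at h1
  have e1 : ev f (seg x η) = η j₀ • x := by
    rw [hev]
    funext o'
    show x o' * η j₀ = η j₀ * x o'
    ring
  have e3 : dev f (seg x η) (seg x' η + seg x η') = η j₀ • x' + η' j₀ • x := by
    rw [hdev]
    funext o'
    show x' o' * η j₀ + x o' * η' j₀ = η j₀ * x' o' + η' j₀ * x o'
    ring
  have e4 : ∀ j, η j₀ * dpol (aeval f (h j) * X (o, j)) (seg x η) (seg x' η + seg x η') =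
      η j₀ ^ (d + 1) * x o * (dpol (h j) x x' * η j + eval x (h j) * η' j) +
      (η j₀ ^ (d + 1) * x' o + x o * η j₀ ^ d * η' j₀ * d) * (eval x (h j) * η j) := by
    intro j
    rw [dpol_mul, dpol_aeval, eval_aeval, e1, e3, dpol_X, eval_X, hh j]
    have h5 := yup_dhom (hh j) (η j₀) (η' j₀) x x'
    show η j₀ * (η j₀ ^ d * eval x (h j) * (x' o * η j + x o * η' j) +
      (x o * η j) * dpol (h j) (η j₀ • x) (η j₀ • x' + η' j₀ • x)) = _
    rw [pow_succ]
    linear_combination (x o * η j) * h5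
  have e5 : η j₀ ^ (d + 1) * x o * yup_lf h x x' η η' = 0 := by
    have e6 : η j₀ * ∑ j, dpol (aeval f (h j) * X (o, j)) (seg x η) (seg x' η + seg x η') = 0 := by
      rw [h1, mul_zero]
    rw [Finset.mul_sum, Finset.sum_congr rfl fun j _ => e4 j, Finset.sum_add_distrib,
      ← Finset.mul_sum, ← Finset.mul_sum, hs h hsyz, mul_zero, add_zero] at e6
    exact e6
  rcases mul_eq_zero.1 e5 with h6 | h6
  · exact absurd h6 (mul_ne_zero (pow_ne_zero _ hj') ho')
  · exact h6

/-- Euler's relation -/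
theorem yup_euler {F : ν → MvPolynomial κ ℂ} {x : κ → ℂ} {η : ν → ℂ} (hs : Syz F x η) :
    ((x, -η) : (κ → ℂ) × (ν → ℂ)) ∈ yupE F x η := by
  intro d h hh hsyz
  show yup_lf h x x η (-η) = 0
  have e : ∀ j, dpol (h j) x x * η j + eval x (h j) * (-η) j =
      ((d : ℂ) - 1) * (eval x (h j) * η j) := by
    intro j
    rw [euler (hh j) x, Pi.neg_apply]
    ring
  rw [yup_lf, Finset.sum_congr rfl fun j _ => e j, ← Finset.mul_sum, hs h hsyz, mul_zero]

/-- linearised Koszul relations -/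
theorem yup_kos {a : ℕ} {F : ν → MvPolynomial κ ℂ} (hF : ∀ j, HomE a (F j)) {x : κ → ℂ}
    {η : ν → ℂ} {p : (κ → ℂ) × (ν → ℂ)} (hp : p ∈ yupE F x η) (i j : ν) :
    dpol (F i) x p.1 * η j + eval x (F i) * p.2 j =
      dpol (F j) x p.1 * η i + eval x (F j) * p.2 i := by
  classical
  have h1 := yup_all hF hp (Pi.single j (F i) - Pi.single i (F j)) (by
    simp only [Pi.sub_apply, sub_mul, Finset.sum_sub_distrib]
    rw [yup_single_mul, yup_single_mul]
    ring)
  rw [yup_lf_sub, yup_lf_single, yup_lf_single] at h1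
  exact sub_eq_zero.1 h1

/-- the map to tensors -/
noncomputable def yupPhi (x : κ → ℂ) (η : ν → ℂ) : ((κ → ℂ) × (ν → ℂ)) →ₗ[ℂ] (κ × ν → ℂ) where
  toFun p := seg p.1 η + seg x p.2
  map_add' p q := by
    show seg (p.1 + q.1) η + seg x (p.2 + q.2) = _
    rw [seg_add_left, seg_add_right]
    abel
  map_smul' c p := by
    show seg (c • p.1) η + seg x (c • p.2) = _
    rw [seg_smul_left, seg_smul_right, ← smul_add]
    rfl

/-- reduction to the dimension of the space of solutions -/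
theorem yup_red {F : ν → MvPolynomial κ ℂ} {x : κ → ℂ} {η : ν → ℂ} (hx : x ≠ 0) (hη : η ≠ 0)
    (hs : Syz F x η) :
    Module.finrank ℂ (tsp (Yc F) (seg x η)) + 1 ≤ Module.finrank ℂ (yupE F x η) := by
  let Ψ := (yupPhi x η).domRestrict (yupE F x η)
  have h1 := LinearMap.finrank_range_add_finrank_ker Ψ
  have h2 : tsp (Yc F) (seg x η) ≤ LinearMap.range Ψ := by
    intro v hv
    obtain ⟨x', η', rfl⟩ := yup_minors hx hη hv
    exact ⟨⟨(x', η'), yup_lin hx hη hs hv⟩, rfl⟩
  have h3 := Submodule.finrank_mono h2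
  have h4 : 1 ≤ Module.finrank ℂ (LinearMap.ker Ψ) := by
    rw [Submodule.one_le_finrank_iff]
    intro hbot
    have h5 : (⟨(x, -η), yup_euler hs⟩ : yupE F x η) ∈ LinearMap.ker Ψ := by
      rw [LinearMap.mem_ker]
      show seg x η + seg x (-η) = 0
      rw [← seg_add_right, add_neg_cancel, seg_zero_right]
    rw [hbot, Submodule.mem_bot] at h5
    have h6 := congrArg (fun q : yupE F x η => (q : (κ → ℂ) × (ν → ℂ)).1) h5
    exact hx h6
  omega

/-- the case of a point outside the centre -/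
theorem yup_case1 {a : ℕ} {F : ν → MvPolynomial κ ℂ} (hF : ∀ j, HomE a (F j)) {x : κ → ℂ}
    {η : ν → ℂ} (i : ν) (hi : eval x (F i) ≠ 0) :
    Module.finrank ℂ (yupE F x η) ≤ Fintype.card κ + 1 := by
  let T : yupE F x η →ₗ[ℂ] (κ → ℂ) × ℂ :=
    { toFun := fun p => ((p : (κ → ℂ) × (ν → ℂ)).1, (p : (κ → ℂ) × (ν → ℂ)).2 i)
      map_add' := fun p q => rfl
      map_smul' := fun c p => rfl }
  have hT : Function.Injective T := by
    rw [← LinearMap.ker_eq_bot, LinearMap.ker_eq_bot']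
    intro p hp
    have h1 : (p : (κ → ℂ) × (ν → ℂ)).1 = 0 := congrArg Prod.fst hp
    have h2 : (p : (κ → ℂ) × (ν → ℂ)).2 i = 0 := congrArg Prod.snd hp
    apply Subtype.ext
    apply Prod.ext
    · exact h1
    · funext j
      have h3 := yup_kos hF p.2 i j
      rw [h1, h2, dpol_zero_right, dpol_zero_right, zero_mul, zero_add, zero_mul, zero_add,
        mul_zero] at h3
      exact (mul_eq_zero.1 h3).resolve_left hi
  have h4 := LinearMap.finrank_le_finrank_of_injective hT
  rw [Module.finrank_prod, Module.finrank_fintype_fun_eq_card, Module.finrank_self] at h4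
  exact h4

/-- the case of a point of the exceptional divisor -/
theorem yup_case2 {a c : ℕ} {F : ν → MvPolynomial κ ℂ} (hF : ∀ j, HomE a (F j)) {x : κ → ℂ}
    {η : ν → ℂ} (hη : η ≠ 0) (hs : Syz F x η) (h0 : ∀ j, eval x (F j) = 0) (I : Fin c → ν)
    (hI : LinearIndependent ℂ (fun i => (fun o => eval x (pderiv o (F (I i))) : κ → ℂ)))
    (h : MvPolynomial κ ℂ) (P : ν → Fin c → MvPolynomial κ ℂ) (hh : eval x h ≠ 0)
    (hP : ∀ j, h * F j = ∑ i, P j i * F (I i)) :
    Module.finrank ℂ (yupE F x η) ≤ Fintype.card κ + 1 := by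
  classical
  -- the syzygies
  have hsz : ∀ j, ∑ k, (Pi.single j h - ∑ i, Pi.single (I i) (P j i) :
      ν → MvPolynomial κ ℂ) k * F k = 0 := by
    intro j
    simp only [Pi.sub_apply, Finset.sum_apply, sub_mul, Finset.sum_sub_distrib, Finset.sum_mul]
    rw [yup_single_mul, Finset.sum_comm, Finset.sum_congr rfl fun i _ => yup_single_mul F (I i) _,
      hP j, sub_self]
  -- one of the coordinates in `I` is nonzero
  obtain ⟨k₀, hk⟩ : ∃ k₀ : Fin c, η (I k₀) ≠ 0 := by
    by_contra hn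
    push Not at hn
    apply hη
    funext j
    have h1 := hs _ (hsz j)
    simp only [Pi.sub_apply, Finset.sum_apply, map_sub, map_sum, sub_mul,
      Finset.sum_sub_distrib, Finset.sum_mul] at h1
    rw [Finset.sum_comm] at h1
    have h2 : ∀ (k : ν) (g : MvPolynomial κ ℂ),
        ∑ l, eval x ((Pi.single k g : ν → MvPolynomial κ ℂ) l) * η l = eval x g * η k := by
      intro k g
      rw [Finset.sum_eq_single k]
      · rw [Pi.single_eq_same]
      · intro l _ hl
        rw [Pi.single_eq_of_ne hl]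
        simp
      · intro hk
        exact absurd (Finset.mem_univ k) hk
    rw [h2, Finset.sum_congr rfl fun i _ => h2 (I i) (P j i),
      Finset.sum_eq_zero fun i _ => by rw [hn i, mul_zero], sub_zero] at h1
    exact (mul_eq_zero.1 h1).resolve_left hh
  -- the Jacobian matrix
  let M : Matrix (Fin c) κ ℂ := Matrix.of fun i o => eval x (pderiv o (F (I i)))
  have hM : ∀ (v : κ → ℂ) (i : Fin c), M.mulVecLin v i = dpol (F (I i)) x v := by
    intro v i
    rfl
  have hrank : Module.finrank ℂ (LinearMap.range M.mulVecLin) = c := by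
    have h1 : M.rank = Fintype.card (Fin c) := LinearIndependent.rank_matrix hI
    rw [Fintype.card_fin] at h1
    exact h1
  have hker := LinearMap.finrank_range_add_finrank_ker M.mulVecLin
  rw [hrank, Module.finrank_fintype_fun_eq_card] at hker
  let T : yupE F x η →ₗ[ℂ] (Fin c → ℂ) × ℂ :=
    { toFun := fun p => (fun i => (p : (κ → ℂ) × (ν → ℂ)).2 (I i),
        dpol (F (I k₀)) x (p : (κ → ℂ) × (ν → ℂ)).1)
      map_add' := fun p q => by
        apply Prod.ext
        · rfl
        · exact dpol_add_right _ _ _ _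
      map_smul' := fun b p => by
        apply Prod.ext
        · rfl
        · exact dpol_smul_right _ _ _ _ }
  have hTk : ∀ p ∈ LinearMap.ker T, (p : (κ → ℂ) × (ν → ℂ)).1 ∈ LinearMap.ker M.mulVecLin ∧
      ((p : (κ → ℂ) × (ν → ℂ)).1 = 0 → p = 0) := by
    intro p hp
    rw [LinearMap.mem_ker] at hp
    have h1 : (fun i => (p : (κ → ℂ) × (ν → ℂ)).2 (I i)) = 0 := congrArg Prod.fst hp
    have h2 : dpol (F (I k₀)) x (p : (κ → ℂ) × (ν → ℂ)).1 = 0 := congrArg Prod.snd hp
    constructor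
    · rw [LinearMap.mem_ker]
      funext i
      rw [hM]
      have h3 := yup_kos hF p.2 (I i) (I k₀)
      rw [h0, h0, h2, zero_mul, zero_mul, zero_mul, add_zero, add_zero] at h3
      exact (mul_eq_zero.1 h3).resolve_right hk
    · intro h4
      apply Subtype.ext
      apply Prod.ext
      · exact h4
      · funext j
        have h5 := yup_all hF p.2 _ (hsz j)
        rw [yup_lf_sub, yup_lf_sum, yup_lf_single,
          Finset.sum_congr rfl fun i _ => yup_lf_single (I i) (P j i) x _ η _,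
          h4] at h5
        have h6 : ∀ i : Fin c, dpol (P j i) x 0 * η (I i) +
            eval x (P j i) * (p : (κ → ℂ) × (ν → ℂ)).2 (I i) = 0 := by
          intro i
          have h7 : (p : (κ → ℂ) × (ν → ℂ)).2 (I i) = 0 := congrFun h1 i
          rw [h7, dpol_zero_right]
          ring
        rw [Finset.sum_eq_zero fun i _ => h6 i, dpol_zero_right, zero_mul, zero_add,
          sub_zero] at h5
        exact (mul_eq_zero.1 h5).resolve_left hh
  let R : LinearMap.ker T →ₗ[ℂ] LinearMap.ker M.mulVecLin :=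
    { toFun := fun p => ⟨((p : yupE F x η) : (κ → ℂ) × (ν → ℂ)).1, (hTk p p.2).1⟩
      map_add' := fun p q => rfl
      map_smul' := fun b p => rfl }
  have hR : Function.Injective R := by
    intro p q hpq
    have e1 : ((p : yupE F x η) : (κ → ℂ) × (ν → ℂ)).1 =
        ((q : yupE F x η) : (κ → ℂ) × (ν → ℂ)).1 := congrArg Subtype.val hpq
    have e2 := (hTk ((p : yupE F x η) - (q : yupE F x η)) (Submodule.sub_mem _ p.2 q.2)).2 (by
      show ((p : yupE F x η) : (κ → ℂ) × (ν → ℂ)).1 -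
        ((q : yupE F x η) : (κ → ℂ) × (ν → ℂ)).1 = 0
      rw [e1, sub_self])
    exact Subtype.ext (sub_eq_zero.1 e2)
  have h8 := LinearMap.finrank_le_finrank_of_injective hR
  have h9 := LinearMap.finrank_range_add_finrank_ker T
  have h10 := Submodule.finrank_le (LinearMap.range T)
  rw [Module.finrank_prod, Module.finrank_fintype_fun_eq_card, Module.finrank_self,
    Fintype.card_fin] at h10
  omega

end Yup

theorem st_YUP : ST_YUP := by
  classical
  intro G ν _ _ w Z ρ a F ρν hD y hy hy0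
  obtain ⟨x, η, rfl, hs⟩ := hy
  have hx : x ≠ 0 := by
    rintro rfl
    exact hy0 (seg_zero_left η)
  have hη : η ≠ 0 := by
    rintro rfl
    exact hy0 (seg_zero_right x)
  have h1 := yup_red hx hη hs
  have h2 : Module.finrank ℂ (yupE F x η) ≤ Fintype.card (Option (Fin w)) + 1 := by
    by_cases h0 : ∀ j, eval x (F j) = 0
    · obtain ⟨h3, h4⟩ := (hD.zero x).1 h0
      have hxo : ov 0 (fun i => x (some i)) = x := by
        rw [← h3]
        exact ov_eta x
      have hz : (fun i => x (some i)) ≠ 0 := by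
        intro hz
        apply hx
        rw [← hxo, hz]
        exact ov_zero_zero
      obtain ⟨c, I, hI, h, P, hh, hP⟩ := hD.loc _ h4 hz
      rw [hxo] at hI hh
      exact yup_case2 hD.hom hη hs h0 I hI h P hh hP
    · push Not at h0
      obtain ⟨i, hi⟩ := h0
      exact yup_case1 hD.hom i hi
  rw [Fintype.card_option, Fintype.card_fin] at h2
  omega

end Pool.Agent.Helper87.VM
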